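import Mathlib

/-!
# Skew braces and almost simple groups
-/

namespace Pool.Agent.LibH14.Skew

/-- A skew brace: a set with two group structures `(B, +)` (not necessarily abelian) and `(B, *)`
such that `a (b + c) = a b - a + a c`. -/
class SkewBrace (B : Type*) extends AddGroup B, Group B where
  mul_add_eq : ∀ a b c : B, a * (b + c) = a * b - a + a * c

/-- A group `G` is almost simple if it has a non-abelian simple normal subgroup `S` whose
centralizer in `G` is trivial. -/
def IsAlmostSimple (G : Type*) [Group G] : Prop :=
  ∃ S : Subgroup G, S.Normal ∧ IsSimpleGroup S ∧ (∃ a b : S, a * b ≠ b * a) ∧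
    Subgroup.centralizer (S : Set G) = ⊥

end Pool.Agent.LibH14.Skew
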