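import Mathlib
import Pool.Agent.Lib_helper14.PSL
import Pool.Agent.Lib_helper14.SkewDefs

/-!
# A finite skew brace with perfect additive group and almost simple, non-perfect
multiplicative group

The skew brace is the semidirect product of the trivial skew brace on `S = PSL(5, 2 ^ 12)` with a
skew brace of order `60` whose additive group is `A₅` and whose multiplicative group is
`C = C₅ ⋊ C₁₂` (the cyclic group of order `12` acts on `C₅` through `x ↦ 2 x`).  The group `C`
embeds in `Out(S)` and this embedding lifts to `Aut(S)`.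
-/

namespace Pool.Agent.LibH14.Skew

open Matrix
open scoped commutatorElement

/-! ### Generalities on skew braces -/

section General

variable {G N : Type*} [Group G] [Group N]

/-- A bijective crossed homomorphism `e : G → N` gives a skew brace with multiplicative group `G`
and additive group isomorphic to `N`. -/
@[reducible] def ofCrossed (e : G ≃ N) (μ : G → N ≃* N)
    (h : ∀ g g', e (g * g') = e g * μ g (e g')) : SkewBrace G :=
  { (Equiv.addGroup (e.trans Additive.ofMul) : AddGroup G), (inferInstance : Group G) with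
    mul_add_eq := by
      let _ : AddGroup G := Equiv.addGroup (e.trans Additive.ofMul)
      let E : G ≃+ Additive N := Equiv.addEquiv (e.trans Additive.ofMul)
      intro a b c
      change a * (b + c) = a * b - a + a * c
      apply E.injective
      rw [map_add, map_sub]
      change Additive.ofMul (e (a * (b + c))) =
        Additive.ofMul (e (a * b)) - Additive.ofMul (e a) + Additive.ofMul (e (a * c))
      have hbc : e (b + c) = e b * e c := by
        change Additive.toMul (E (b + c)) = _
        rw [map_add]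
        rfl
      rw [h, h, h, hbc, map_mul (μ a)]
      change Additive.ofMul _ = Additive.ofMul (e a * (μ a) (e b) / e a * (e a * (μ a) (e c)))
      congr 1
      simp only [div_eq_mul_inv, mul_assoc, inv_mul_cancel_left] }

theorem ofCrossed_perfect (e : G ≃ N) (μ : G → N ≃* N)
    (h : ∀ g g', e (g * g') = e g * μ g (e g')) [Group.IsPerfect N] :
    @Group.IsPerfect (Multiplicative G)
      (@Multiplicative.group G (ofCrossed e μ h).toAddGroup) := by
  let _ : AddGroup G := (ofCrossed e μ h).toAddGroup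
  let E : G ≃+ Additive N := Equiv.addEquiv (e.trans Additive.ofMul)
  let E' : N ≃* Multiplicative G := (AddEquiv.toMultiplicativeLeft E).symm
  exact Group.IsPerfect.ofSurjective (f := E'.toMonoidHom) E'.surjective

theorem isPerfect_prod (G N : Type*) [Group G] [Group N] [Group.IsPerfect G]
    [Group.IsPerfect N] : Group.IsPerfect (G × N) := by
  rw [Group.isPerfect_def, commutator_def, ← Subgroup.top_prod_top,
    Subgroup.commutator_prod_prod]
  rw [← commutator_def, ← commutator_def, Group.IsPerfect.commutator_eq_top,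
    Group.IsPerfect.commutator_eq_top]

/-- The homomorphism from a cyclic group of order `n` sending the generator to `g`. -/
def cycHom {G : Type*} [Group G] (n : ℕ) [NeZero n] (g : G) (hg : g ^ n = 1) :
    Multiplicative (ZMod n) →* G where
  toFun k := g ^ (Multiplicative.toAdd k).val
  map_one' := by simp
  map_mul' a b := by
    rw [toAdd_mul, ZMod.val_add, ← pow_add]
    exact (pow_eq_pow_mod _ hg).symm

end General

/-! ### The skew brace of order `60` with additive group `A₅` -/

/-- The automorphism `x ↦ 2 x` of the cyclic group of order `5`. -/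
def dbl : MulAut (Multiplicative (ZMod 5)) where
  toFun x := Multiplicative.ofAdd (2 * Multiplicative.toAdd x)
  invFun x := Multiplicative.ofAdd (3 * Multiplicative.toAdd x)
  left_inv := by decide
  right_inv := by decide
  map_mul' := by decide

lemma dbl_pow : dbl ^ 12 = 1 := by
  ext x
  revert x
  decide

/-- The action of the cyclic group of order `12` on the cyclic group of order `5`. -/
def theta : Multiplicative (ZMod 12) →* MulAut (Multiplicative (ZMod 5)) :=
  cycHom 12 dbl dbl_pow

/-- The group `C₅ ⋊ C₁₂` of order `60`. -/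
abbrev C60 : Type := Multiplicative (ZMod 5) ⋊[theta] Multiplicative (ZMod 12)

/-- translation `x ↦ x + 1` on `ZMod 5`. -/
def tr : Equiv.Perm (ZMod 5) := Equiv.addRight 1

/-- `x ↦ 2 x` on `ZMod 5`. -/
def mu : Equiv.Perm (ZMod 5) where
  toFun x := 2 * x
  invFun x := 3 * x
  left_inv := by decide
  right_inv := by decide

/-- The permutation `(0 1 2)(3 4)` of `ZMod 5`. -/
def six : Equiv.Perm (ZMod 5) where
  toFun x := ![1, 2, 0, 4, 3] x
  invFun x := ![2, 0, 1, 4, 3] x
  left_inv := by decide
  right_inv := by decide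

lemma tr_pow : tr ^ 5 = 1 := by
  ext x; revert x; decide

lemma mu_pow : mu ^ 12 = 1 := by
  ext x; revert x; decide

lemma six_pow : six ^ 12 = 1 := by
  ext x; revert x; decide

/-- The homomorphism from `C₅ ⋊ C₁₂` to the affine group of `ZMod 5`. -/
def fHom : C60 →* Equiv.Perm (ZMod 5) :=
  SemidirectProduct.lift (cycHom 5 tr tr_pow) (cycHom 12 mu mu_pow) (by
    intro g
    ext x y
    revert g x y
    decide +kernel)

/-- The homomorphism from `C₅ ⋊ C₁₂` to the cyclic group generated by `(0 1 2)(3 4)`. -/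
def hHom : C60 →* Equiv.Perm (ZMod 5) :=
  (cycHom 12 six six_pow).comp SemidirectProduct.rightHom

lemma sign_tr : Equiv.Perm.sign tr = 1 := by decide +kernel
lemma sign_mu : Equiv.Perm.sign mu = -1 := by decide +kernel
lemma sign_six : Equiv.Perm.sign six = -1 := by decide +kernel

lemma fHom_apply (c : C60) : fHom c = tr ^ (Multiplicative.toAdd c.left).val *
    mu ^ (Multiplicative.toAdd c.right).val := rfl

lemma hHom_apply (c : C60) : hHom c = six ^ (Multiplicative.toAdd c.right).val := rfl

lemma sign_eq (c : C60) : Equiv.Perm.sign (fHom c) = Equiv.Perm.sign (hHom c) := by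
  rw [fHom_apply, hHom_apply, map_mul, map_pow, map_pow, map_pow, sign_tr, sign_mu, sign_six,
    one_pow, one_mul]

lemma eq_one_of_eq (c : C60) (hc : fHom c = hHom c) : c = 1 := by
  obtain ⟨i, k⟩ := c
  have key : ∀ (i : ZMod 5) (k : ZMod 12),
      (∀ x : ZMod 5, (tr ^ i.val * mu ^ k.val) x = (six ^ k.val) x) → i = 0 ∧ k = 0 := by
    decide +kernel
  rw [fHom_apply, hHom_apply] at hc
  obtain ⟨h1, h2⟩ := key (Multiplicative.toAdd i) (Multiplicative.toAdd k)
    (fun x => by simpa using congrArg (fun p => p x) hc)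
  ext
  · simpa using h1
  · simpa using h2

instance : Fintype C60 := Fintype.ofEquiv _ SemidirectProduct.equivProd.symm

lemma card_C60 : Fintype.card C60 = 60 := by
  rw [Fintype.card_congr SemidirectProduct.equivProd, Fintype.card_prod]
  simp [ZMod.card]

lemma card_A5 : Fintype.card (alternatingGroup (ZMod 5)) = 60 := by
  have : Nontrivial (ZMod 5) := inferInstanceAs (Nontrivial (Fin 5))
  have h : 2 * Fintype.card (alternatingGroup (ZMod 5)) = Fintype.card (Equiv.Perm (ZMod 5)) := by
    convert two_mul_card_alternatingGroup (α := ZMod 5)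
  rw [Fintype.card_perm, ZMod.card] at h
  have h5 : Nat.factorial 5 = 120 := rfl
  omega

/-- The map `c ↦ f(c) h(c)⁻¹`. -/
def piMap (c : C60) : alternatingGroup (ZMod 5) :=
  ⟨fHom c * (hHom c)⁻¹, by
    rw [Equiv.Perm.mem_alternatingGroup, map_mul, map_inv, sign_eq, mul_inv_cancel]⟩

lemma piMap_injective : Function.Injective piMap := by
  intro c c' hcc
  have h1 : fHom c * (hHom c)⁻¹ = fHom c' * (hHom c')⁻¹ := congrArg Subtype.val hcc
  have h2 : fHom (c'⁻¹ * c) = hHom (c'⁻¹ * c) := by
    rw [map_mul, map_mul, map_inv, map_inv]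
    have : fHom c = fHom c' * (hHom c')⁻¹ * hHom c := by
      rw [← h1]; group
    rw [this]; group
  have h3 := eq_one_of_eq _ h2
  exact (inv_mul_eq_one.1 h3).symm

lemma piMap_bijective : Function.Bijective piMap := by
  rw [Fintype.bijective_iff_injective_and_card]
  exact ⟨piMap_injective, by rw [card_C60, card_A5]⟩

lemma piMap_mul (c c' : C60) :
    piMap (c * c') = piMap c * MulAut.conjNormal (hHom c) (piMap c') := by
  apply Subtype.ext
  simp only [piMap, map_mul, Subgroup.coe_mul, MulAut.conjNormal_apply, _root_.mul_inv_rev]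
  group

/-! ### Automorphisms of `SL(5, F)` -/

section SL

variable {F : Type} [Field F]

/-- `SL(5, F)`. -/
abbrev SL5 (F : Type) [Field F] : Type := Matrix.SpecialLinearGroup (Fin 5) F

/-- The diagonal matrix `diag(u, 1, 1, 1, 1)`. -/
def dg (u : F) : Matrix (Fin 5) (Fin 5) F := Matrix.diagonal (fun i => if i = 0 then u else 1)

lemma dg_mul (u v : F) : dg u * dg v = dg (u * v) := by
  unfold dg
  rw [Matrix.diagonal_mul_diagonal]
  congr 1
  ext i
  split_ifs <;> simp

lemma dg_one : dg (1 : F) = 1 := by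
  unfold dg
  simp

lemma det_dg (u : F) : (dg u).det = u := by
  unfold dg
  rw [Matrix.det_diagonal, Fin.prod_univ_five]
  simp

lemma dg_map (σ : F ≃+* F) (u : F) : (dg u).map σ = dg (σ u) := by
  unfold dg
  rw [Matrix.diagonal_map (map_zero σ)]
  congr 1
  ext i
  by_cases hi : i = 0 <;> simp [hi]

/-- Conjugation by `diag(u, 1, 1, 1, 1)` on `SL(5, F)`. -/
def Delta : Fˣ →* MulAut (SL5 F) where
  toFun u :=
    { toFun := fun A => ⟨dg (u : F) * A.1 * dg ((u⁻¹ : Fˣ) : F), by
        rw [det_mul, det_mul, det_dg, det_dg, A.2, mul_one, Units.mul_inv]⟩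
      invFun := fun A => ⟨dg ((u⁻¹ : Fˣ) : F) * A.1 * dg (u : F), by
        rw [det_mul, det_mul, det_dg, det_dg, A.2, mul_one, Units.inv_mul]⟩
      left_inv := fun A => by
        apply Subtype.ext
        change dg ((u⁻¹ : Fˣ) : F) * (dg (u : F) * A.1 * dg ((u⁻¹ : Fˣ) : F)) * dg (u : F) = A.1
        rw [mul_assoc (dg (u : F)), ← mul_assoc (dg ((u⁻¹ : Fˣ) : F)), dg_mul, Units.inv_mul,
          dg_one, one_mul, mul_assoc, dg_mul, Units.inv_mul, dg_one, mul_one]
      right_inv := fun A => by
        apply Subtype.ext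
        change dg (u : F) * (dg ((u⁻¹ : Fˣ) : F) * A.1 * dg (u : F)) * dg ((u⁻¹ : Fˣ) : F) = A.1
        rw [mul_assoc (dg ((u⁻¹ : Fˣ) : F)), ← mul_assoc (dg (u : F)), dg_mul, Units.mul_inv,
          dg_one, one_mul, mul_assoc, dg_mul, Units.mul_inv, dg_one, mul_one]
      map_mul' := fun A B => by
        apply Subtype.ext
        change dg (u : F) * (A.1 * B.1) * dg ((u⁻¹ : Fˣ) : F) =
          (dg (u : F) * A.1 * dg ((u⁻¹ : Fˣ) : F)) * (dg (u : F) * B.1 * dg ((u⁻¹ : Fˣ) : F))
        have : dg ((u⁻¹ : Fˣ) : F) * dg (u : F) = 1 := by rw [dg_mul, Units.inv_mul, dg_one]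
        calc dg (u : F) * (A.1 * B.1) * dg ((u⁻¹ : Fˣ) : F)
            = dg (u : F) * A.1 * (1 * B.1 * dg ((u⁻¹ : Fˣ) : F)) := by
              simp only [mul_assoc, one_mul]
          _ = _ := by rw [← this]; simp only [mul_assoc] }
  map_one' := by
    ext A : 1
    apply Subtype.ext
    change dg ((1 : Fˣ) : F) * A.1 * dg (((1 : Fˣ)⁻¹ : Fˣ) : F) = A.1
    rw [inv_one, Units.val_one, dg_one, one_mul, mul_one]
  map_mul' u v := by
    ext A : 1
    apply Subtype.ext
    change dg ((u * v : Fˣ) : F) * A.1 * dg (((u * v)⁻¹ : Fˣ) : F) =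
      dg (u : F) * (dg (v : F) * A.1 * dg ((v⁻¹ : Fˣ) : F)) * dg ((u⁻¹ : Fˣ) : F)
    rw [_root_.mul_inv_rev, Units.val_mul, Units.val_mul, ← dg_mul, ← dg_mul]
    simp only [mul_assoc]

lemma Delta_coe (u : Fˣ) (A : SL5 F) :
    (Delta u A).1 = dg (u : F) * A.1 * dg ((u⁻¹ : Fˣ) : F) := rfl

/-- Entrywise application of a field automorphism on `SL(5, F)`. -/
def Phi : (F ≃+* F) →* MulAut (SL5 F) where
  toFun σ :=
    { toFun := fun A => ⟨A.1.map σ, by
        have := (RingHom.map_det (σ : F →+* F) A.1)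
        rw [A.2, map_one] at this
        exact this.symm⟩
      invFun := fun A => ⟨A.1.map σ.symm, by
        have := (RingHom.map_det (σ.symm : F →+* F) A.1)
        rw [A.2, map_one] at this
        exact this.symm⟩
      left_inv := fun A => by
        apply Subtype.ext
        ext i j
        simp
      right_inv := fun A => by
        apply Subtype.ext
        ext i j
        simp
      map_mul' := fun A B => by
        apply Subtype.ext
        exact Matrix.map_mul (f := (σ : F →+* F)) }
  map_one' := by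
    ext A : 1
    apply Subtype.ext
    ext i j
    rfl
  map_mul' σ τ := by
    ext A : 1
    apply Subtype.ext
    ext i j
    rfl

lemma Phi_coe (σ : F ≃+* F) (A : SL5 F) : (Phi σ A).1 = A.1.map σ := rfl

lemma Phi_mul_Delta (σ : F ≃+* F) (u : Fˣ) :
    Phi σ * Delta u = Delta (Units.map (σ : F →* F) u) * Phi σ := by
  ext A : 1
  apply Subtype.ext
  change (dg (u : F) * A.1 * dg ((u⁻¹ : Fˣ) : F)).map σ =
    dg ((Units.map (σ : F →* F) u : Fˣ) : F) * (A.1.map σ) *
      dg (((Units.map (σ : F →* F) u)⁻¹ : Fˣ) : F)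
  have h1 : (dg (u : F) * A.1 * dg ((u⁻¹ : Fˣ) : F)).map (σ : F →+* F) =
      (dg (u : F)).map (σ : F →+* F) * A.1.map (σ : F →+* F) *
        (dg ((u⁻¹ : Fˣ) : F)).map (σ : F →+* F) := by
    rw [Matrix.map_mul, Matrix.map_mul]
  have h2 := dg_map σ (u : F)
  have h3 := dg_map σ ((u⁻¹ : Fˣ) : F)
  rw [← map_inv]
  change (dg (u : F) * A.1 * dg ((u⁻¹ : Fˣ) : F)).map (σ : F →+* F) = dg (σ (u : F)) * (A.1.map σ) *
      dg (σ ((u⁻¹ : Fˣ) : F))
  rw [h1, ← h2, ← h3]
  rfl

end SL

/-! ### The action of `C₅ ⋊ C₁₂` on `SL(5, F)` -/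

section Action

variable {F : Type} [Field F]

lemma dbl_pow_apply (k : ℕ) (x : Multiplicative (ZMod 5)) :
    Multiplicative.toAdd ((dbl ^ k) x) = 2 ^ k * Multiplicative.toAdd x := by
  induction k with
  | zero => simp
  | succ k ih =>
    rw [pow_succ', MulAut.mul_apply]
    change 2 * Multiplicative.toAdd ((dbl ^ k) x) = _
    rw [ih, pow_succ', mul_assoc]

lemma phi_pow_apply (phi : F ≃+* F) (h2 : ∀ x, phi x = x ^ 2) (k : ℕ) (x : F) :
    (phi ^ k) x = x ^ (2 ^ k) := by
  induction k with
  | zero => simp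
  | succ k ih =>
    rw [pow_succ', RingAut.mul_apply, ih, h2, ← pow_mul, pow_succ]

lemma pow_val_dbl (lam : Fˣ) (hlam : lam ^ 5 = 1) (k : ℕ) (x : Multiplicative (ZMod 5)) :
    lam ^ (Multiplicative.toAdd ((dbl ^ k) x)).val =
      (lam ^ (Multiplicative.toAdd x).val) ^ (2 ^ k) := by
  rw [dbl_pow_apply, ← pow_mul]
  have : (2 ^ k * Multiplicative.toAdd x : ZMod 5) =
      (((Multiplicative.toAdd x).val * 2 ^ k : ℕ) : ZMod 5) := by
    push_cast
    rw [ZMod.natCast_val, ZMod.cast_id', id, mul_comm]
  rw [this, ZMod.val_natCast]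
  exact (pow_eq_pow_mod _ hlam).symm

/-- The action of `C₅ ⋊ C₁₂` on `SL(5, F)`: the generator of `C₅` acts by conjugation by
`diag(lam, 1, 1, 1, 1)` and the generator of `C₁₂` acts by the field automorphism `phi`. -/
def rho (lam : Fˣ) (hlam : lam ^ 5 = 1) (phi : F ≃+* F) (h12 : phi ^ 12 = 1)
    (h2 : ∀ x, phi x = x ^ 2) : C60 →* MulAut (SL5 F) :=
  SemidirectProduct.lift (Delta.comp (cycHom 5 lam hlam)) (Phi.comp (cycHom 12 phi h12)) (by
    intro g
    apply MonoidHom.ext
    intro x
    change Delta (lam ^ (Multiplicative.toAdd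
        ((dbl ^ (Multiplicative.toAdd g).val) x)).val) =
      Phi (phi ^ (Multiplicative.toAdd g).val) * Delta (lam ^ (Multiplicative.toAdd x).val) *
        (Phi (phi ^ (Multiplicative.toAdd g).val))⁻¹
    rw [Phi_mul_Delta, mul_inv_cancel_right, pow_val_dbl lam hlam]
    congr 1
    apply Units.ext
    change _ = (phi ^ (Multiplicative.toAdd g).val) ((lam ^ (Multiplicative.toAdd x).val : Fˣ) : F)
    rw [phi_pow_apply phi h2]
    push_cast
    rfl)

lemma rho_apply (lam : Fˣ) (hlam : lam ^ 5 = 1) (phi : F ≃+* F) (h12 : phi ^ 12 = 1)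
    (h2 : ∀ x, phi x = x ^ 2) (c : C60) : rho lam hlam phi h12 h2 c =
    Delta (lam ^ (Multiplicative.toAdd c.left).val) *
      Phi (phi ^ (Multiplicative.toAdd c.right).val) := rfl

end Action

/-! ### The action of `C₅ ⋊ C₁₂` is by non-inner automorphisms -/

section Inner

variable {F : Type} [Field F]

lemma scalar_of_comm (P : Matrix (Fin 5) (Fin 5) F) (τ : F ≃+* F)
    (h : ∀ (i j : Fin 5) (_ : i ≠ j) (c : F), P * single i j (τ c) = single i j c * P) :
    ∃ p : F, P = p • (1 : Matrix (Fin 5) (Fin 5) F) ∧ ∀ c, p * τ c = c * p := by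
  have hdiag : ∀ i j : Fin 5, i ≠ j → ∀ c, P i i * τ c = c * P j j := by
    intro i j hij c
    have := congrFun (congrFun (h i j hij c) i) j
    simpa using this
  have hoff : ∀ k i : Fin 5, k ≠ i → P k i = 0 := by
    intro k i hki
    obtain ⟨j, hj⟩ : ∃ j : Fin 5, i ≠ j := ⟨k, hki.symm⟩
    have := congrFun (congrFun (h i j hj 1) k) j
    simpa [hki, hki.symm] using this
  have heq : ∀ i : Fin 5, P i i = P 0 0 := by
    intro i
    rcases eq_or_ne i 0 with rfl | hi
    · rfl
    · have := hdiag i 0 hi 1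
      simpa using this
  refine ⟨P 0 0, ?_, ?_⟩
  · ext i j
    rcases eq_or_ne i j with rfl | hij
    · simp [heq i]
    · simp [hoff i j hij, hij]
  · intro c
    have := hdiag 0 1 (by decide) c
    rwa [heq 1] at this

lemma inner_trivial (hcard : ∀ x : Fˣ, x ^ 4095 = 1) (M : SL5 F) (u : Fˣ) (hu : u ^ 5 = 1)
    (τ : F ≃+* F) (h : MulAut.conj M * (Delta u * Phi τ) = 1) : u = 1 ∧ τ = 1 := by
  set P : Matrix (Fin 5) (Fin 5) F := M.1 * dg (u : F) with hP
  have hA : ∀ A : SL5 F, P * A.1.map τ = A.1 * P := by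
    intro A
    have h1 : (MulAut.conj M * (Delta u * Phi τ)) A = A := by rw [h]; rfl
    have h2 : M * (Delta u (Phi τ A)) * M⁻¹ = A := h1
    have h3 : M * (Delta u (Phi τ A)) = A * M := by
      rw [← h2]
      simp only [inv_mul_cancel_right]
      rw [h2]
    have h4 : M.1 * (dg (u : F) * A.1.map τ * dg ((u⁻¹ : Fˣ) : F)) = A.1 * M.1 :=
      congrArg Subtype.val h3
    have h5 : dg ((u⁻¹ : Fˣ) : F) * dg (u : F) = 1 := by
      rw [dg_mul, Units.inv_mul, dg_one]
    calc P * A.1.map τ = M.1 * (dg (u : F) * A.1.map τ * dg ((u⁻¹ : Fˣ) : F)) * dg (u : F) := by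
          rw [hP]
          simp only [mul_assoc, h5, mul_one]
      _ = A.1 * P := by rw [h4, hP, mul_assoc]
  obtain ⟨p, hp, hp2⟩ := scalar_of_comm P τ (by
    intro i j hij c
    have h1 := hA (SpecialLinearGroup.transvection hij c)
    rw [SpecialLinearGroup.transvection_coe] at h1
    have h2 : ((1 : Matrix (Fin 5) (Fin 5) F) + single i j c).map τ = 1 + single i j (τ c) := by
      ext k l
      simp only [Matrix.map_apply, Matrix.add_apply, Matrix.one_apply, Matrix.single_apply,
        map_add]
      congr 1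
      · split_ifs <;> simp
      · split_ifs <;> simp
    rw [h2, mul_add, add_mul, mul_one, one_mul] at h1
    exact add_left_cancel h1)
  have hdet : p ^ 5 = (u : F) := by
    have h1 : P.det = (u : F) := by rw [hP, det_mul, det_dg, M.2, one_mul]
    rw [← h1, hp, det_smul, det_one, mul_one, Fintype.card_fin]
  have hp0 : p ≠ 0 := by
    rintro rfl
    rw [zero_pow (by norm_num)] at hdet
    exact u.ne_zero hdet.symm
  have hu1 : u = 1 := by
    set q : Fˣ := Units.mk0 p hp0 with hq
    have hq5 : q ^ 5 = u := by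
      apply Units.ext
      rw [Units.val_pow_eq_pow_val]
      exact hdet
    have h25 : q ^ 25 = 1 := by
      rw [show (25 : ℕ) = 5 * 5 by norm_num, pow_mul, hq5, hu]
    have hd : orderOf q ∣ Nat.gcd 25 4095 :=
      Nat.dvd_gcd (orderOf_dvd_of_pow_eq_one h25) (orderOf_dvd_of_pow_eq_one (hcard q))
    have hg : Nat.gcd 25 4095 = 5 := by norm_num
    rw [hg] at hd
    rw [← hq5]
    exact orderOf_dvd_iff_pow_eq_one.1 hd
  refine ⟨hu1, ?_⟩
  ext c
  have := hp2 c
  rw [mul_comm c p] at this
  exact mul_left_cancel₀ hp0 this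

end Inner

/-! ### The simple group of inner automorphisms of `SL(5, F)` -/

section Inn

variable {F : Type} [Field F]

/-- The group of inner automorphisms of `SL(5, F)`; it is isomorphic to `PSL(5, F)`. -/
abbrev Inn (F : Type) [Field F] : Subgroup (MulAut (SL5 F)) :=
  (MulAut.conj : SL5 F →* MulAut (SL5 F)).range

lemma conj_conj (α : MulAut (SL5 F)) (x : SL5 F) :
    α * MulAut.conj x * α⁻¹ = MulAut.conj (α x) := by
  ext y : 1
  change α (x * α⁻¹ y * x⁻¹) = α x * y * (α x)⁻¹
  rw [map_mul, map_mul, map_inv]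
  congr 2
  exact MulAut.apply_inv_self _ α y

instance : (Inn F).Normal where
  conj_mem := by
    rintro _ ⟨x, rfl⟩ α
    exact ⟨α x, (conj_conj α x).symm⟩

lemma ker_conj : (MulAut.conj : SL5 F →* MulAut (SL5 F)).ker = Subgroup.center (SL5 F) := by
  ext x
  rw [MonoidHom.mem_ker, Subgroup.mem_center_iff]
  constructor
  · intro h y
    have h1 : x * y * x⁻¹ = y := by
      have : MulAut.conj x y = y := by rw [h]; rfl
      exact this
    calc y * x = x * y * x⁻¹ * x := by rw [h1]
      _ = x * y := by group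
  · intro h
    ext y : 1
    change x * y * x⁻¹ = y
    rw [← h y]
    group

/-- `Inn(SL(5, F)) ≃ PSL(5, F)`. -/
noncomputable def innEquiv : Matrix.ProjectiveSpecialLinearGroup (Fin 5) F ≃* Inn F :=
  (QuotientGroup.quotientMulEquivOfEq (ker_conj (F := F)).symm).trans
    (QuotientGroup.quotientKerEquivRange (MulAut.conj : SL5 F →* MulAut (SL5 F)))

instance : Group.IsPerfect (SL5 F) :=
  ⟨Pool.Agent.LibH14.SL_commutator_eq_top (by simp)⟩

instance : Group.IsPerfect (Inn F) := Group.IsPerfect.range _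

instance : IsSimpleGroup (Inn F) := by
  have : IsSimpleGroup (Matrix.ProjectiveSpecialLinearGroup (Fin 5) F) :=
    Pool.Agent.LibH14.PSL_isSimpleGroup (by simp)
  exact (innEquiv (F := F)).symm.isSimpleGroup

lemma eq_one_of_centralizes (α : MulAut (SL5 F))
    (h : ∀ x : SL5 F, MulAut.conj x * α = α * MulAut.conj x) : α = 1 := by
  have h1 : ∀ x : SL5 F, x⁻¹ * α x ∈ Subgroup.center (SL5 F) := by
    intro x
    rw [← ker_conj, MonoidHom.mem_ker, map_mul, ← conj_conj, ← h x]
    rw [map_inv]
    group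
  have h2 : commutator (SL5 F) ≤ MonoidHom.eqLocus α.toMonoidHom (MonoidHom.id (SL5 F)) := by
    rw [commutator_def, Subgroup.commutator_le]
    intro x _ y _
    change α ⁅x, y⁆ = ⁅x, y⁆
    rw [map_commutatorElement]
    obtain ⟨z, hz⟩ : ∃ z, z = x⁻¹ * α x := ⟨_, rfl⟩
    obtain ⟨w, hw⟩ : ∃ w, w = y⁻¹ * α y := ⟨_, rfl⟩
    have hx : α x = x * z := by rw [hz]; group
    have hy : α y = y * w := by rw [hw]; group
    have hzc := Subgroup.mem_center_iff.1 (hz ▸ h1 x)
    have hwc := Subgroup.mem_center_iff.1 (hw ▸ h1 y)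
    rw [hx, hy, commutatorElement_def, commutatorElement_def, _root_.mul_inv_rev,
      _root_.mul_inv_rev]
    calc x * z * (y * w) * (z⁻¹ * x⁻¹) * (w⁻¹ * y⁻¹)
        = x * (z * (y * w)) * z⁻¹ * (x⁻¹ * w⁻¹) * y⁻¹ := by group
      _ = x * ((y * w) * z) * z⁻¹ * (x⁻¹ * w⁻¹) * y⁻¹ := by rw [← hzc (y * w)]
      _ = x * y * (w * x⁻¹) * w⁻¹ * y⁻¹ := by group
      _ = x * y * (x⁻¹ * w) * w⁻¹ * y⁻¹ := by rw [← hwc x⁻¹]
      _ = x * y * x⁻¹ * y⁻¹ := by group
  rw [Group.IsPerfect.commutator_eq_top] at h2
  ext x : 1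
  exact h2 (Subgroup.mem_top x)

end Inn

/-! ### The skew brace -/

section Brace

variable {F : Type} [Field F] (lam : Fˣ) (hlam : lam ^ 5 = 1) (phi : F ≃+* F)
  (h12 : phi ^ 12 = 1) (h2 : ∀ x, phi x = x ^ 2)

/-- The action of `C₅ ⋊ C₁₂` on `Inn(SL(5, F))`. -/
def psi : C60 →* MulAut (Inn F) := MulAut.conjNormal.comp (rho lam hlam phi h12 h2)

/-- The multiplicative group `Inn(SL(5, F)) ⋊ (C₅ ⋊ C₁₂)`. -/
abbrev Mul : Type := Inn F ⋊[psi lam hlam phi h12 h2] C60

/-- The underlying bijection with `Inn(SL(5, F)) × A₅`. -/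
noncomputable def eMap : Mul lam hlam phi h12 h2 ≃ Inn F × alternatingGroup (ZMod 5) :=
  SemidirectProduct.equivProd.trans
    (Equiv.prodCongr (Equiv.refl _) (Equiv.ofBijective piMap piMap_bijective))

/-- The action of the multiplicative group on the additive group. -/
def muMap (b : Mul lam hlam phi h12 h2) :
    (Inn F × alternatingGroup (ZMod 5)) ≃* (Inn F × alternatingGroup (ZMod 5)) :=
  MulEquiv.prodCongr (psi lam hlam phi h12 h2 b.right) (MulAut.conjNormal (hHom b.right))

lemma eMap_mul (b b' : Mul lam hlam phi h12 h2) :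
    eMap lam hlam phi h12 h2 (b * b') = eMap lam hlam phi h12 h2 b *
      muMap lam hlam phi h12 h2 b (eMap lam hlam phi h12 h2 b') := by
  apply Prod.ext
  · rfl
  · exact piMap_mul b.right b'.right

instance : Group.IsPerfect (alternatingGroup (ZMod 5)) :=
  ⟨commutator_alternatingGroup_eq_top (by simp)⟩

instance : Group.IsPerfect (Inn F × alternatingGroup (ZMod 5)) := isPerfect_prod _ _

/-- The skew brace. -/
@[reducible] noncomputable def theBrace : SkewBrace (Mul lam hlam phi h12 h2) :=
  ofCrossed (eMap lam hlam phi h12 h2) (muMap lam hlam phi h12 h2) (eMap_mul lam hlam phi h12 h2)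

lemma not_perfect : ¬ Group.IsPerfect (Mul lam hlam phi h12 h2) := by
  intro h
  let f : Mul lam hlam phi h12 h2 →* Multiplicative (ZMod 12) :=
    (SemidirectProduct.rightHom).comp SemidirectProduct.rightHom
  have hf : Function.Surjective f :=
    (SemidirectProduct.rightHom_surjective).comp SemidirectProduct.rightHom_surjective
  have h1 : Group.IsPerfect (Multiplicative (ZMod 12)) := Group.IsPerfect.ofSurjective hf
  have h2 : Subsingleton (Multiplicative (ZMod 12)) :=
    Group.IsPerfect.subsingleton_of_isMulCommutative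
  have h3 := h2.elim (Multiplicative.ofAdd (0 : ZMod 12)) (Multiplicative.ofAdd (1 : ZMod 12))
  exact absurd (Multiplicative.ofAdd.injective h3) (by decide)

/-- The copy of `Inn(SL(5, F))` in the multiplicative group. -/
abbrev Soc : Subgroup (Mul lam hlam phi h12 h2) :=
  (SemidirectProduct.inl : Inn F →* Mul lam hlam phi h12 h2).range

/-- `Inn(SL(5, F))` is isomorphic to its copy. -/
noncomputable def socEquiv : Inn F ≃* Soc lam hlam phi h12 h2 :=
  MonoidHom.ofInjective SemidirectProduct.inl_injective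

lemma soc_nonabelian : ∃ a b : Soc lam hlam phi h12 h2, a * b ≠ b * a := by
  by_contra hcon
  push Not at hcon
  have h1 : IsMulCommutative (Soc lam hlam phi h12 h2) := ⟨⟨hcon⟩⟩
  have h2' : Group.IsPerfect (Soc lam hlam phi h12 h2) :=
    Group.IsPerfect.ofSurjective (f := (socEquiv lam hlam phi h12 h2).toMonoidHom)
      (socEquiv lam hlam phi h12 h2).surjective
  have h3 : Subsingleton (Soc lam hlam phi h12 h2) :=
    Group.IsPerfect.subsingleton_of_isMulCommutative
  have h4 : Subsingleton (Inn F) := (socEquiv lam hlam phi h12 h2).toEquiv.subsingleton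
  exact not_subsingleton (Inn F) h4

lemma soc_centralizer (hcard : ∀ x : Fˣ, x ^ 4095 = 1)
    (hlam' : ∀ i : ZMod 5, lam ^ i.val = 1 → i = 0)
    (hphi' : ∀ k : ZMod 12, phi ^ k.val = 1 → k = 0) :
    Subgroup.centralizer (Soc lam hlam phi h12 h2 : Set (Mul lam hlam phi h12 h2)) = ⊥ := by
  rw [eq_bot_iff]
  intro b hb
  rw [Subgroup.mem_centralizer_iff] at hb
  rw [Subgroup.mem_bot]
  obtain ⟨⟨s, M, rfl⟩, c⟩ := b
  have h1 : ∀ x : SL5 F, MulAut.conj x * (MulAut.conj M * rho lam hlam phi h12 h2 c) =
      (MulAut.conj M * rho lam hlam phi h12 h2 c) * MulAut.conj x := by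
    intro x
    have h := hb (SemidirectProduct.inl (⟨MulAut.conj x, x, rfl⟩ : Inn F)) ⟨_, rfl⟩
    have hl := congrArg (fun z : Mul lam hlam phi h12 h2 =>
      ((SemidirectProduct.left z : Inn F) : MulAut (SL5 F))) h
    simp only [SemidirectProduct.mul_left, SemidirectProduct.left_inl,
      SemidirectProduct.right_inl, map_one, MulAut.one_apply, Subgroup.coe_mul] at hl
    change MulAut.conj x * MulAut.conj M = MulAut.conj M *
      (rho lam hlam phi h12 h2 c * MulAut.conj x * (rho lam hlam phi h12 h2 c)⁻¹) at hl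
    rw [← mul_assoc, hl]
    group
  have h3 := eq_one_of_centralizes _ h1
  rw [rho_apply] at h3
  obtain ⟨h4, h5⟩ := inner_trivial hcard M _ (by rw [← pow_mul, mul_comm, pow_mul, hlam, one_pow])
    _ h3
  have h6 := hlam' _ h4
  have h7 := hphi' _ h5
  have hc : c = 1 := by
    ext
    · simpa using h6
    · simpa using h7
  subst hc
  have h8 : MulAut.conj M = 1 := by
    have := eq_one_of_centralizes _ h1
    rwa [map_one, mul_one] at this
  apply SemidirectProduct.ext
  · apply Subtype.ext
    exact h8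
  · rfl

end Brace

lemma soc_normal {F : Type} [Field F] (lam : Fˣ) (hlam : lam ^ 5 = 1) (phi : F ≃+* F)
    (h12 : phi ^ 12 = 1) (h2 : ∀ x, phi x = x ^ 2) : (Soc lam hlam phi h12 h2).Normal := by
  have h := SemidirectProduct.range_inl_eq_ker_rightHom (φ := psi lam hlam phi h12 h2)
  change (SemidirectProduct.inl : Inn F →* Mul lam hlam phi h12 h2).range.Normal
  rw [h]
  infer_instance

/-! ### The main theorem -/

/-- There is a finite skew brace whose additive group is perfect and whose multiplicative group is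
almost simple but not perfect. -/
theorem exists_skewBrace : ∃ (B : Type) (_ : SkewBrace B), Finite B ∧
    Group.IsPerfect (Multiplicative B) ∧ IsAlmostSimple B ∧ ¬ Group.IsPerfect B := by
  classical
  let F := GaloisField 2 12
  have : Fintype F := Fintype.ofFinite F
  have hF : Fintype.card F = 4096 := by
    rw [← Nat.card_eq_fintype_card, GaloisField.card 2 12 (by norm_num)]
    norm_num
  have hU : Fintype.card Fˣ = 4095 := by
    rw [Fintype.card_units, hF]
  have hcard : ∀ x : Fˣ, x ^ 4095 = 1 := fun x => by rw [← hU]; exact pow_card_eq_one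
  obtain ⟨g, hg⟩ := IsCyclic.exists_generator (α := Fˣ)
  have hgo : orderOf g = 4095 := by
    rw [orderOf_eq_card_of_forall_mem_zpowers hg, Nat.card_eq_fintype_card, hU]
  let phi : F ≃+* F := frobeniusEquiv F 2
  have h2 : ∀ x, phi x = x ^ 2 := fun x => by
    simp [phi, frobeniusEquiv_apply, frobenius_def]
  have h12 : phi ^ 12 = 1 := by
    ext x
    rw [phi_pow_apply phi h2]
    have := FiniteField.pow_card x
    rw [hF] at this
    simpa using this
  let lam : Fˣ := g ^ 819
  have hlam : lam ^ 5 = 1 := by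
    simp only [lam]
    rw [← pow_mul]
    exact hcard g
  have hlam' : ∀ i : ZMod 5, lam ^ i.val = 1 → i = 0 := by
    intro i hi
    simp only [lam] at hi
    rw [← pow_mul] at hi
    have hd := orderOf_dvd_of_pow_eq_one hi
    rw [hgo] at hd
    have hlt := ZMod.val_lt i
    rw [← ZMod.val_eq_zero]
    omega
  have hphi' : ∀ k : ZMod 12, phi ^ k.val = 1 → k = 0 := by
    intro k hk
    have h3 : (g : F) ^ (2 ^ k.val) = (g : F) := by
      rw [← phi_pow_apply phi h2, hk]
      rfl
    have h4 : g ^ (2 ^ k.val) = g ^ 1 := by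
      apply Units.ext
      push_cast
      rw [pow_one]
      exact h3
    rw [pow_eq_pow_iff_modEq, hgo] at h4
    have key : ∀ k : ZMod 12, 2 ^ k.val ≡ 1 [MOD 4095] → k = 0 := by decide
    exact key k h4
  refine ⟨Mul lam hlam phi h12 h2, theBrace lam hlam phi h12 h2, ?_, ?_, ?_, ?_⟩
  · exact Finite.of_equiv _ (eMap lam hlam phi h12 h2).symm
  · exact ofCrossed_perfect _ _ _
  · exact ⟨Soc lam hlam phi h12 h2, soc_normal lam hlam phi h12 h2,
      (socEquiv lam hlam phi h12 h2).symm.isSimpleGroup,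
      soc_nonabelian lam hlam phi h12 h2,
      soc_centralizer lam hlam phi h12 h2 hcard hlam' hphi'⟩
  · exact not_perfect lam hlam phi h12 h2

end Pool.Agent.LibH14.Skew
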